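import Pool.Agent.Helper86.RG.Comb

/-!
# COMB in the form `ST_CB` of helper69
-/

namespace Pool.Agent.Helper86.RG

open Finset Classical

/-- **COMB**, form with the slack `u < M` in every coordinate and exact hits. -/
theorem comb_slack : ∀ gam eps : ℝ, 0 < gam → gam ≤ 1 → 0 < eps →
    ∃ (j M : ℕ) (c eta : ℝ), 0 < c ∧ 0 < eta ∧ ∃ n0 : ℕ, ∀ n : ℕ, n0 ≤ n →
    ∀ (A : Fin (j + 1) → Finset ℕ) (D : Finset ℕ),
    (∀ i, A i ⊆ range n) →
    (∀ i, ∀ r : ℕ, r ≤ n → gam * r - eta * n ≤ #((A i).filter (fun m => m < r))) →
    D ⊆ range n → eps * n ≤ #D →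
    c * n ^ (j + 1) ≤ #((Fintype.piFinset (fun _ : Fin (j + 1) => range n)).filter
      (fun m => (∀ i, ∃ u : ℕ, u < M ∧ m i + u ∈ A i) ∧ ∑ i, m i ∈ D)) := by
  intro gam eps hgam hgam1 heps
  obtain ⟨Q0, hQ0⟩ := comb (gam / 2) (by positivity) (by linarith)
  obtain ⟨J0, hJ0⟩ := hQ0 (eps / 2) (by positivity)
  obtain ⟨c, hc, eta, heta, n0, hmain⟩ := hJ0 (J0 + 1) (by omega)
  -- the slack
  set M : ℕ := Q0 + 1 with hM
  set eta' : ℝ := gam * eta / 8 with heta'
  obtain ⟨n1, hn1⟩ := exists_nat_gt ((M : ℝ) * (8 / (gam * eta) + 2 / eps))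
  refine ⟨J0, M, c / M, eta', by positivity, by positivity, max n0 (n1 + 1), ?_⟩
  intro n hn A D hA hAr hD hDc
  have hn0 : n0 ≤ n := le_trans (le_max_left _ _) hn
  have hn1' : n1 + 1 ≤ n := le_trans (le_max_right _ _) hn
  have hnpos : 0 < n := by omega
  have hnr : (0 : ℝ) < n := by exact_mod_cast hnpos
  have hnbig : (M : ℝ) * (8 / (gam * eta) + 2 / eps) < n := by
    have : (n1 : ℝ) ≤ n := by exact_mod_cast (by omega : n1 ≤ n)
    linarith
  have hMpos : (0 : ℝ) < M := by
    have : 0 < M := by omega
    exact_mod_cast this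
  have hM1 : (M : ℝ) * (8 / (gam * eta)) ≤ n := by
    have : 0 ≤ (M : ℝ) * (2 / eps) := by positivity
    rw [mul_add] at hnbig
    linarith
  have hM2 : (M : ℝ) * (2 / eps) ≤ n := by
    have : 0 ≤ (M : ℝ) * (8 / (gam * eta)) := by positivity
    rw [mul_add] at hnbig
    linarith
  have hM1' : (M : ℝ) ≤ gam * eta / 8 * n := by
    have h1 : (M : ℝ) * (8 / (gam * eta)) * (gam * eta / 8) ≤ n * (gam * eta / 8) :=
      mul_le_mul_of_nonneg_right hM1 (by positivity)
    have e : (M : ℝ) * (8 / (gam * eta)) * (gam * eta / 8) = M := by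
      field_simp
    rw [e] at h1
    linarith
  have hM2' : (M : ℝ) ≤ eps / 2 * n := by
    have h1 : (M : ℝ) * (2 / eps) * (eps / 2) ≤ n * (eps / 2) :=
      mul_le_mul_of_nonneg_right hM2 (by positivity)
    have e : (M : ℝ) * (2 / eps) * (eps / 2) = M := by
      field_simp
    rw [e] at h1
    linarith
  -- remove the small elements
  set A' : Fin (J0 + 1) → Finset ℕ := fun i => (A i).filter (fun m => M ≤ m) with hA'
  have hA'r : ∀ i, ∀ r : ℕ, eta * n ≤ r → r ≤ n →
      gam / 2 * r ≤ #((A' i).filter (fun m => m < r)) := by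
    intro i r hr1 hr2
    have h1 := hAr i r hr2
    have h2 : #((A i).filter (fun m => m < r)) ≤ #((A' i).filter (fun m => m < r)) + M := by
      have hsub : (A i).filter (fun m => m < r) ⊆ (A' i).filter (fun m => m < r) ∪ range M := by
        intro m hm
        obtain ⟨hm1, hm2⟩ := Finset.mem_filter.1 hm
        rw [Finset.mem_union, Finset.mem_range]
        by_cases h : m < M
        · exact Or.inr h
        · exact Or.inl (Finset.mem_filter.2 ⟨Finset.mem_filter.2 ⟨hm1, by omega⟩, hm2⟩)
      have := (Finset.card_le_card hsub).trans (Finset.card_union_le _ _)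
      rw [Finset.card_range] at this
      exact this
    have h2' : (#((A i).filter (fun m => m < r)) : ℝ) ≤
        #((A' i).filter (fun m => m < r)) + M := by exact_mod_cast h2
    have h3 : gam * eta / 8 * n ≤ gam / 8 * r := by
      calc gam * eta / 8 * n = gam / 8 * (eta * n) := by ring
        _ ≤ gam / 8 * r := mul_le_mul_of_nonneg_left hr1 (by positivity)
    have h4 : eta' * n ≤ gam / 8 * r := by
      rw [heta']
      exact h3
    have h5 : (0 : ℝ) ≤ gam * r := by positivity
    linarith
  -- the shifted target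
  set D' : Finset ℕ := (D.image (fun d => d + Q0)).filter (fun d => d < n) with hD'
  have hD'n : D' ⊆ range n := by
    intro d hd
    exact Finset.mem_range.2 (Finset.mem_filter.1 hd).2
  have hD'c : eps / 2 * n ≤ #D' := by
    have h1 : #D ≤ #D' + M := by
      have hsub : D.image (fun d => d + Q0) ⊆ D' ∪ Ico n (n + M) := by
        intro d hd
        obtain ⟨e, he, rfl⟩ := Finset.mem_image.1 hd
        have := Finset.mem_range.1 (hD he)
        rw [Finset.mem_union, Finset.mem_Ico]
        by_cases h : e + Q0 < n
        · exact Or.inl (Finset.mem_filter.2 ⟨hd, h⟩)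
        · exact Or.inr ⟨by omega, by omega⟩
      have h2 := (Finset.card_le_card hsub).trans (Finset.card_union_le _ _)
      rw [Nat.card_Ico, Finset.card_image_of_injective _ (fun a b h => by simpa using h)] at h2
      omega
    have h1' : (#D : ℝ) ≤ #D' + M := by exact_mod_cast h1
    linarith
  have hcount := hmain n hn0 A' D' hA'r hD'n hD'c
  -- the map on tuples
  set T1 := (Fintype.piFinset A').filter
    (fun m => ∃ d ∈ D', ∑ i, m i ≤ d ∧ d < ∑ i, m i + Q0) with hT1
  set T2 := (Fintype.piFinset (fun _ : Fin (J0 + 1) => range n)).filter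
      (fun m => (∀ i, ∃ u : ℕ, u < M ∧ m i + u ∈ A i) ∧ ∑ i, m i ∈ D) with hT2
  have hle : #T1 ≤ #T2 * M := by
    -- T1 is covered by the translates of T2
    have hsub : T1 ⊆ (T2 ×ˢ range M).image
        (fun p => Function.update p.1 0 (p.1 0 + p.2)) := by
      intro a ha
      obtain ⟨ha1, d, hd, hd1, hd2⟩ := Finset.mem_filter.1 ha
      rw [Fintype.mem_piFinset] at ha1
      obtain ⟨hd3, _⟩ := Finset.mem_filter.1 hd
      obtain ⟨e, he, hed⟩ := Finset.mem_image.1 hd3
      -- u = S - e
      have hu1 : e ≤ ∑ i, a i := by omega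
      have hu2 : ∑ i, a i - e < M := by omega
      have ha0 : M ≤ a 0 := (Finset.mem_filter.1 (ha1 0)).2
      have haA : ∀ i, a i ∈ A i := fun i => (Finset.mem_filter.1 (ha1 i)).1
      set u := ∑ i, a i - e with hu
      set m : Fin (J0 + 1) → ℕ := Function.update a 0 (a 0 - u) with hm
      have hm0 : m 0 = a 0 - u := by rw [hm, Function.update_self]
      have hmi : ∀ i, i ≠ 0 → m i = a i := fun i hi => by
        rw [hm, Function.update_of_ne hi]
      rw [Finset.mem_image]
      refine ⟨(m, u), ?_, ?_⟩
      · rw [Finset.mem_product]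
        refine ⟨?_, Finset.mem_range.2 hu2⟩
        refine Finset.mem_filter.2 ⟨?_, ?_, ?_⟩
        · rw [Fintype.mem_piFinset]
          intro i
          by_cases hi : i = 0
          · rw [hi]
            show m 0 ∈ range n
            rw [hm0, Finset.mem_range]
            have := Finset.mem_range.1 (hA 0 (haA 0))
            omega
          · show m i ∈ range n
            rw [hmi i hi]
            exact hA i (haA i)
        · intro i
          by_cases hi : i = 0
          · refine ⟨u, hu2, ?_⟩
            rw [hi]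
            show m 0 + u ∈ A 0
            rw [hm0, Nat.sub_add_cancel (by omega)]
            exact haA 0
          · refine ⟨0, by omega, ?_⟩
            show m i + 0 ∈ A i
            rw [hmi i hi, Nat.add_zero]
            exact haA i
        · have hsum : ∑ i, m i = e := by
            have h1 : ∑ i, m i + u = ∑ i, a i := by
              rw [Fin.sum_univ_succ, Fin.sum_univ_succ (f := a), hm0]
              have h2 : ∑ i : Fin J0, m i.succ = ∑ i : Fin J0, a i.succ := by
                apply Finset.sum_congr rfl
                intro i _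
                exact hmi _ (Fin.succ_ne_zero i)
              rw [h2]
              omega
            omega
          show ∑ i, m i ∈ D
          rw [hsum]
          exact he
      · show Function.update m 0 (m 0 + u) = a
        funext i
        by_cases hi : i = 0
        · rw [hi, Function.update_self, hm0, Nat.sub_add_cancel (by omega)]
        · rw [Function.update_of_ne hi, hmi i hi]
    have h1 := (Finset.card_le_card hsub).trans Finset.card_image_le
    rw [Finset.card_product, Finset.card_range] at h1
    exact h1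
  have hle' : (#T1 : ℝ) ≤ #T2 * M := by exact_mod_cast hle
  have h1 : c * (n : ℝ) ^ (J0 + 1) ≤ #T2 * M := hcount.trans hle'
  rw [div_mul_eq_mul_div, div_le_iff₀ hMpos]
  exact h1

end Pool.Agent.Helper86.RG
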