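import Mathlib

/-!
# COMB: the integer lemma of THEOREM RING

`comb` : if `N_1, ..., N_J` are sets of integers in `[0,n)` with lower density at least `g` at every
scale `r ≥ η n` and `D` is a subset of `[0,n)` with at least `ε n` elements, then at least `c n^J`
tuples `m_i ∈ N_i` have their sum in `D` up to a bounded error `Q = Q(g)`.
-/

namespace Pool.Agent.Helper86.RG

open Finset Classical

/-- the points of `[c,t)` which are not covered by `[x,x+Q)`, `x ∈ C`, `x ≥ c` -/
noncomputable def W (C : Finset ℕ) (Q c t : ℕ) : ℕ :=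
  #((Ico c t).filter (fun y => ∀ x ∈ C, c ≤ x → x ≤ y → x + Q ≤ y))

/-- points where the right maximal function of `S` is at least `lam` -/
noncomputable def MX (S : Finset ℕ) (lam : ℝ) (n : ℕ) : Finset ℕ :=
  (range n).filter (fun x => ∃ s : ℕ, 1 ≤ s ∧ lam * s ≤ #(S ∩ Ico x (x + s)))

/-- the maximal inequality -/
lemma mx_le (S : Finset ℕ) (lam : ℝ) (hlam : 0 ≤ lam) (n : ℕ) :
    lam * #(MX S lam n) ≤ #S := by
  have key : ∀ d x : ℕ, n ≤ x + d →
      lam * #((MX S lam n).filter (fun y => x ≤ y)) ≤ #(S.filter (fun y => x ≤ y)) := by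
    intro d
    induction d using Nat.strong_induction_on with
    | _ d ih =>
      intro x hx
      by_cases hxn : n ≤ x
      · have : (MX S lam n).filter (fun y => x ≤ y) = ∅ := by
          apply Finset.filter_eq_empty_iff.2
          intro y hy hxy
          have := Finset.mem_range.1 (Finset.mem_filter.1 hy).1
          omega
        rw [this]
        simp
      · push Not at hxn
        by_cases hmem : x ∈ MX S lam n
        · obtain ⟨s, hs1, hs⟩ := (Finset.mem_filter.1 hmem).2
          have h1 : (MX S lam n).filter (fun y => x ≤ y) ⊆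
              Ico x (x + s) ∪ (MX S lam n).filter (fun y => x + s ≤ y) := by
            intro y hy
            obtain ⟨hy1, hy2⟩ := Finset.mem_filter.1 hy
            rw [Finset.mem_union, Finset.mem_Ico, Finset.mem_filter]
            by_cases h : y < x + s
            · exact Or.inl ⟨hy2, h⟩
            · exact Or.inr ⟨hy1, by omega⟩
          have h2 : (#((MX S lam n).filter (fun y => x ≤ y)) : ℝ) ≤
              s + #((MX S lam n).filter (fun y => x + s ≤ y)) := by
            have := (Finset.card_le_card h1).trans (Finset.card_union_le _ _)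
            rw [Nat.card_Ico] at this
            have h3 : #((MX S lam n).filter (fun y => x ≤ y)) ≤
              s + #((MX S lam n).filter (fun y => x + s ≤ y)) := by omega
            exact_mod_cast h3
          have h3 : lam * #((MX S lam n).filter (fun y => x + s ≤ y)) ≤
              #(S.filter (fun y => x + s ≤ y)) := by
            refine ih (n - (x + s)) ?_ (x + s) ?_
            · omega
            · omega
          have h4 : #(S ∩ Ico x (x + s)) + #(S.filter (fun y => x + s ≤ y)) ≤
              #(S.filter (fun y => x ≤ y)) := by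
            rw [← Finset.card_union_of_disjoint]
            · apply Finset.card_le_card
              intro y hy
              rw [Finset.mem_union, Finset.mem_inter, Finset.mem_Ico, Finset.mem_filter] at hy
              rw [Finset.mem_filter]
              rcases hy with ⟨h, h', _⟩ | ⟨h, h'⟩
              · exact ⟨h, h'⟩
              · exact ⟨h, by omega⟩
            · rw [Finset.disjoint_left]
              intro y hy hy'
              rw [Finset.mem_inter, Finset.mem_Ico] at hy
              rw [Finset.mem_filter] at hy'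
              omega
          have h4' : (#(S ∩ Ico x (x + s)) : ℝ) + #(S.filter (fun y => x + s ≤ y)) ≤
              #(S.filter (fun y => x ≤ y)) := by exact_mod_cast h4
          calc lam * #((MX S lam n).filter (fun y => x ≤ y))
              ≤ lam * (s + #((MX S lam n).filter (fun y => x + s ≤ y))) :=
                mul_le_mul_of_nonneg_left h2 hlam
            _ = lam * s + lam * #((MX S lam n).filter (fun y => x + s ≤ y)) := by ring
            _ ≤ #(S ∩ Ico x (x + s)) + #(S.filter (fun y => x + s ≤ y)) := add_le_add hs h3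
            _ ≤ _ := h4'
        · have h1 : (MX S lam n).filter (fun y => x ≤ y) =
              (MX S lam n).filter (fun y => x + 1 ≤ y) := by
            apply Finset.filter_congr
            intro y hy
            constructor
            · intro h
              rcases Nat.eq_or_lt_of_le h with h | h
              · exact absurd (h ▸ hy) hmem
              · exact h
            · intro h
              omega
          rw [h1]
          have h3 : lam * #((MX S lam n).filter (fun y => x + 1 ≤ y)) ≤
              #(S.filter (fun y => x + 1 ≤ y)) := by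
            refine ih (n - (x + 1)) ?_ (x + 1) ?_
            · omega
            · omega
          refine h3.trans ?_
          have : #(S.filter (fun y => x + 1 ≤ y)) ≤ #(S.filter (fun y => x ≤ y)) := by
            apply Finset.card_le_card
            intro y hy
            rw [Finset.mem_filter] at hy ⊢
            exact ⟨hy.1, by omega⟩
          exact_mod_cast this
  have h := key n 0 (by omega)
  simpa using h

/-- good points of `N` below `R` -/
noncomputable def GP (N : Finset ℕ) (n R : ℕ) (g : ℝ) : Finset ℕ :=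
  (range R).filter (fun b => ∀ s : ℕ, b + s ≤ n → g * s ≤ #(N ∩ Ico b (b + s)))

lemma card_inter_Ico_add (N : Finset ℕ) {x y z : ℕ} (hxy : x ≤ y) (hyz : y ≤ z) :
    #(N ∩ Ico x z) = #(N ∩ Ico x y) + #(N ∩ Ico y z) := by
  rw [← Finset.card_union_of_disjoint]
  · congr 1
    ext u
    rw [Finset.mem_union, Finset.mem_inter, Finset.mem_inter, Finset.mem_inter, Finset.mem_Ico,
      Finset.mem_Ico, Finset.mem_Ico]
    constructor
    · rintro ⟨h1, h2, h3⟩
      by_cases h : u < y
      · exact Or.inl ⟨h1, h2, h⟩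
      · exact Or.inr ⟨h1, by omega, h3⟩
    · rintro (⟨h1, h2, h3⟩ | ⟨h1, h2, h3⟩)
      · exact ⟨h1, h2, by omega⟩
      · exact ⟨h1, by omega, h3⟩
  · rw [Finset.disjoint_left]
    intro u hu hu'
    rw [Finset.mem_inter, Finset.mem_Ico] at hu hu'
    omega

/-- rising sun lemma: there are many good points -/
lemma gp_card (N : Finset ℕ) (n R : ℕ) (g : ℝ) (hg : 0 < g) (hRn : R ≤ n)
    (hN : ∀ r : ℕ, R ≤ r → r ≤ n → g * r ≤ #(N ∩ Ico 0 r)) :
    g / 2 * R ≤ #(GP N n R (g / 2)) := by
  have key : ∀ d x : ℕ, x + d = R → ∃ y : ℕ, R ≤ y ∧ y ≤ n ∧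
      (#(N ∩ Ico x y) : ℝ) - g / 2 * ((y : ℝ) - x) ≤
        #((GP N n R (g / 2)).filter (fun b => x ≤ b)) := by
    intro d
    induction d using Nat.strong_induction_on with
    | _ d ih =>
      intro x hx
      by_cases hxR : R ≤ x
      · refine ⟨R, le_rfl, hRn, ?_⟩
        have : x = R := by omega
        rw [this]
        simp
      · push Not at hxR
        by_cases hgood : x ∈ GP N n R (g / 2)
        · obtain ⟨y, hy1, hy2, hy⟩ := ih (d - 1) (by omega) (x + 1) (by omega)
          refine ⟨y, hy1, hy2, ?_⟩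
          have h1 : #(N ∩ Ico x y) ≤ 1 + #(N ∩ Ico (x + 1) y) := by
            rw [card_inter_Ico_add N (show x ≤ x + 1 by omega) (show x + 1 ≤ y by omega)]
            have : #(N ∩ Ico x (x + 1)) ≤ 1 := by
              calc #(N ∩ Ico x (x + 1)) ≤ #(Ico x (x + 1)) :=
                    Finset.card_le_card Finset.inter_subset_right
                _ = 1 := by simp
            omega
          have h2 : #((GP N n R (g / 2)).filter (fun b => x + 1 ≤ b)) + 1 ≤
              #((GP N n R (g / 2)).filter (fun b => x ≤ b)) := by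
            rw [← Finset.card_insert_of_notMem (a := x)]
            · apply Finset.card_le_card
              intro u hu
              rw [Finset.mem_insert] at hu
              rcases hu with rfl | hu
              · exact Finset.mem_filter.2 ⟨hgood, le_rfl⟩
              · rw [Finset.mem_filter] at hu ⊢
                exact ⟨hu.1, by omega⟩
            · rw [Finset.mem_filter]
              rintro ⟨_, h⟩
              omega
          have h1' : (#(N ∩ Ico x y) : ℝ) ≤ 1 + #(N ∩ Ico (x + 1) y) := by exact_mod_cast h1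
          have h2' : (#((GP N n R (g / 2)).filter (fun b => x + 1 ≤ b)) : ℝ) + 1 ≤
              #((GP N n R (g / 2)).filter (fun b => x ≤ b)) := by exact_mod_cast h2
          push_cast at hy
          have hg2 : 0 ≤ g / 2 := by positivity
          nlinarith [hy, h1', h2']
        · have hbad : ∃ s : ℕ, x + s ≤ n ∧ (#(N ∩ Ico x (x + s)) : ℝ) < g / 2 * s := by
            by_contra hcon
            push Not at hcon
            exact hgood (Finset.mem_filter.2 ⟨Finset.mem_range.2 hxR, hcon⟩)
          obtain ⟨s, hsn, hs⟩ := hbad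
          have hs0 : 0 < s := by
            rcases Nat.eq_zero_or_pos s with h | h
            · rw [h] at hs
              simp at hs
            · exact h
          by_cases hsR : R ≤ x + s
          · refine ⟨x + s, hsR, hsn, ?_⟩
            push_cast
            have : (0 : ℝ) ≤ #((GP N n R (g / 2)).filter (fun b => x ≤ b)) := by positivity
            linarith
          · push Not at hsR
            obtain ⟨y, hy1, hy2, hy⟩ := ih (R - (x + s)) (by omega) (x + s) (by omega)
            refine ⟨y, hy1, hy2, ?_⟩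
            have h2 : #((GP N n R (g / 2)).filter (fun b => x + s ≤ b)) ≤
              #((GP N n R (g / 2)).filter (fun b => x ≤ b)) := by
              apply Finset.card_le_card
              intro u hu
              rw [Finset.mem_filter] at hu ⊢
              exact ⟨hu.1, by omega⟩
            have h2' : (#((GP N n R (g / 2)).filter (fun b => x + s ≤ b)) : ℝ) ≤
              #((GP N n R (g / 2)).filter (fun b => x ≤ b)) := by exact_mod_cast h2
            have h1 : (#(N ∩ Ico x y) : ℝ) = #(N ∩ Ico x (x + s)) + #(N ∩ Ico (x + s) y) := by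
              exact_mod_cast card_inter_Ico_add N (show x ≤ x + s by omega)
                (show x + s ≤ y by omega)
            push_cast at hy
            rw [h1]
            linarith
  obtain ⟨y, hy1, hy2, hy⟩ := key R 0 (by omega)
  have h1 := hN y hy1 hy2
  have h2 : (#((GP N n R (g / 2)).filter (fun b => 0 ≤ b)) : ℝ) = #(GP N n R (g / 2)) := by
    simp
  rw [h2] at hy
  have h3 : (R : ℝ) ≤ y := by exact_mod_cast hy1
  have hg2 : 0 ≤ g / 2 := by positivity
  have h4 := mul_le_mul_of_nonneg_left h3 hg2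
  push_cast at hy
  linarith

/-- local gap lemma -/
lemma local_gap (B : Finset ℕ) (Q u l : ℕ) (g : ℝ) (hQ : 8 ≤ g * Q)
    (hu : u ∈ B) (hB : g / 4 * l ≤ #(B ∩ Ico u (u + l))) :
    (#((Ico u (u + l)).filter (fun y => ∀ x ∈ B, u ≤ x → x ≤ y → x + Q ≤ y)) : ℝ) ≤
      (1 - g / 8) * ((l - Q : ℕ) : ℝ) := by
  set Unc := (Ico u (u + l)).filter (fun y => ∀ x ∈ B, u ≤ x → x ≤ y → x + Q ≤ y) with hUnc
  rcases Finset.eq_empty_or_nonempty Unc with hemp | hne
  · rw [hemp]
    rcases Nat.lt_or_ge Q l with hl | hl
    · -- need 1 - g/8 nonneg: follows from the count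
      have h1 : (#(B ∩ Ico u (u + l)) : ℝ) ≤ l := by
        have : #(B ∩ Ico u (u + l)) ≤ #(Ico u (u + l)) :=
          Finset.card_le_card Finset.inter_subset_right
        rw [Nat.card_Ico] at this
        have h : #(B ∩ Ico u (u + l)) ≤ l := by omega
        exact_mod_cast h
      have hl0 : (0 : ℝ) < l := by
        have : 0 < l := by omega
        exact_mod_cast this
      have h2 : g / 4 * l ≤ 1 * l := by linarith
      have h3 : g / 4 ≤ 1 := le_of_mul_le_mul_right h2 hl0
      have h4 : 0 ≤ 1 - g / 8 := by linarith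
      simpa using mul_nonneg h4 (Nat.cast_nonneg (l - Q))
    · have : l - Q = 0 := by omega
      rw [this]
      simp
  · set y0 := Unc.min' hne with hy0
    have hy0m : y0 ∈ Unc := Finset.min'_mem _ _
    obtain ⟨hy0I, hy0u⟩ := Finset.mem_filter.1 hy0m
    rw [Finset.mem_Ico] at hy0I
    have hyQ : u + Q ≤ y0 := hy0u u hu le_rfl hy0I.1
    have hQpos : 0 < Q := by
      rcases Nat.eq_zero_or_pos Q with h | h
      · rw [h] at hQ
        simp at hQ
        linarith
      · exact h
    -- the three disjoint sets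
    have hdis1 : Disjoint (B ∩ Ico u (u + l)) (Unc ∪ Ico (y0 + 1 - Q) y0) := by
      rw [Finset.disjoint_left]
      intro z hz hz'
      rw [Finset.mem_inter, Finset.mem_Ico] at hz
      rw [Finset.mem_union, Finset.mem_Ico] at hz'
      rcases hz' with hz' | hz'
      · have := (Finset.mem_filter.1 hz').2 z hz.1 hz.2.1 le_rfl
        omega
      · have := hy0u z hz.1 hz.2.1 (by omega)
        omega
    have hdis2 : Disjoint Unc (Ico (y0 + 1 - Q) y0) := by
      rw [Finset.disjoint_left]
      intro z hz hz'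
      rw [Finset.mem_Ico] at hz'
      have := Finset.min'_le _ _ hz
      omega
    have hsub : (B ∩ Ico u (u + l)) ∪ (Unc ∪ Ico (y0 + 1 - Q) y0) ⊆ Ico u (u + l) := by
      intro z hz
      rw [Finset.mem_union, Finset.mem_union, Finset.mem_inter] at hz
      rcases hz with hz | hz | hz
      · exact hz.2
      · exact (Finset.mem_filter.1 hz).1
      · rw [Finset.mem_Ico] at hz ⊢
        omega
    have hc := Finset.card_le_card hsub
    rw [Finset.card_union_of_disjoint hdis1, Finset.card_union_of_disjoint hdis2,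
      Nat.card_Ico, Nat.card_Ico] at hc
    have hc' : #(B ∩ Ico u (u + l)) + #Unc + Q ≤ l + 1 := by omega
    have hc'' : (#(B ∩ Ico u (u + l)) : ℝ) + #Unc + Q ≤ l + 1 := by exact_mod_cast hc'
    have hlQ : Q ≤ l := by omega
    rw [Nat.cast_sub hlQ]
    nlinarith [hc'', hB, hQ]

/-- the gap filling step -/
lemma gap_step (A B : Finset ℕ) (Q c b T : ℕ) (g : ℝ) (hg0 : 0 < g) (hQ : 8 ≤ g * Q)
    (hc : c ∈ A) (hAc : ∀ a ∈ A, c ≤ a)
    (hfill : ∀ a ∈ A, ∀ l : ℕ, 1 ≤ l → a + l ≤ T →
      g / 4 * l ≤ #(B ∩ Ico (a + b) (a + b + l))) :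
    ∀ t : ℕ, c ≤ t → t ≤ T → (W B Q (c + b) (t + b) : ℝ) ≤ (1 - g / 8) * (W A Q c t) := by
  intro t
  induction t using Nat.strong_induction_on with
  | _ t ih =>
    intro hct htT
    rcases Nat.eq_or_lt_of_le hct with h | hlt
    · subst h
      have h1 : W B Q (c + b) (c + b) = 0 := by
        unfold W
        simp
      have h2 : W A Q c c = 0 := by
        unfold W
        simp
      rw [h1, h2]
      simp
    · -- the last element of `A` before `t`
      set S := A.filter (fun a => a < t) with hS
      have hSne : S.Nonempty := ⟨c, Finset.mem_filter.2 ⟨hc, hlt⟩⟩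
      set a := S.max' hSne with ha
      have haS : a ∈ S := Finset.max'_mem _ _
      obtain ⟨haA, hat⟩ := Finset.mem_filter.1 haS
      have hca := hAc a haA
      have hmax : ∀ x ∈ A, x < t → x ≤ a := fun x hx hxt =>
        Finset.le_max' _ _ (Finset.mem_filter.2 ⟨hx, hxt⟩)
      have hIH := ih a hat hca (by omega)
      -- split of W A
      have hWA : W A Q c t = W A Q c a + (t - a - Q) := by
        unfold W
        have h1 : (Ico c t).filter (fun y => ∀ x ∈ A, c ≤ x → x ≤ y → x + Q ≤ y) =
            (Ico c a).filter (fun y => ∀ x ∈ A, c ≤ x → x ≤ y → x + Q ≤ y) ∪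
              Ico (a + Q) t := by
          ext y
          rw [Finset.mem_union, Finset.mem_filter, Finset.mem_filter, Finset.mem_Ico,
            Finset.mem_Ico, Finset.mem_Ico]
          constructor
          · rintro ⟨⟨h1, h2⟩, h3⟩
            by_cases hya : y < a
            · exact Or.inl ⟨⟨h1, hya⟩, h3⟩
            · exact Or.inr ⟨h3 a haA hca (by omega), h2⟩
          · rintro (⟨⟨h1, h2⟩, h3⟩ | ⟨h1, h2⟩)
            · exact ⟨⟨h1, by omega⟩, h3⟩
            · refine ⟨⟨by omega, h2⟩, ?_⟩
              intro x hx _ hxy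
              have := hmax x hx (by omega)
              omega
        rw [h1, Finset.card_union_of_disjoint, Nat.card_Ico]
        · omega
        · rw [Finset.disjoint_left]
          intro y hy hy'
          rw [Finset.mem_filter, Finset.mem_Ico] at hy
          rw [Finset.mem_Ico] at hy'
          omega
      have hWB : W B Q (c + b) (t + b) ≤ W B Q (c + b) (a + b) +
          #((Ico (a + b) (a + b + (t - a))).filter
            (fun y => ∀ x ∈ B, a + b ≤ x → x ≤ y → x + Q ≤ y)) := by
        unfold W
        refine le_trans ?_ (Finset.card_union_le _ _)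
        apply Finset.card_le_card
        intro y hy
        rw [Finset.mem_filter, Finset.mem_Ico] at hy
        rw [Finset.mem_union, Finset.mem_filter, Finset.mem_filter, Finset.mem_Ico,
          Finset.mem_Ico]
        obtain ⟨⟨h1, h2⟩, h3⟩ := hy
        by_cases hya : y < a + b
        · exact Or.inl ⟨⟨h1, hya⟩, h3⟩
        · refine Or.inr ⟨⟨by omega, by omega⟩, ?_⟩
          intro x hx hx1 hx2
          exact h3 x hx (by omega) hx2
      have hf1 : a + b ∈ B := by
        have h1 := hfill a haA 1 le_rfl (by omega)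
        have h2 : 0 < (#(B ∩ Ico (a + b) (a + b + 1)) : ℝ) := by
          have : 0 < g / 4 * ((1 : ℕ) : ℝ) := by
            push_cast
            linarith
          linarith
        have h3 : 0 < #(B ∩ Ico (a + b) (a + b + 1)) := by exact_mod_cast h2
        obtain ⟨z, hz⟩ := Finset.card_pos.1 h3
        rw [Finset.mem_inter, Finset.mem_Ico] at hz
        have : z = a + b := by omega
        rw [← this]
        exact hz.1
      have hloc := local_gap B Q (a + b) (t - a) g hQ hf1
        (hfill a haA (t - a) (by omega) (by omega))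
      have hWB' : (W B Q (c + b) (t + b) : ℝ) ≤ W B Q (c + b) (a + b) +
          #((Ico (a + b) (a + b + (t - a))).filter
            (fun y => ∀ x ∈ B, a + b ≤ x → x ≤ y → x + Q ≤ y)) := by exact_mod_cast hWB
      have hWA' : (W A Q c t : ℝ) = W A Q c a + ((t - a - Q : ℕ) : ℝ) := by exact_mod_cast hWA
      rw [hWA', mul_add]
      linarith

/-- removal of a set of density at most `lam` -/
lemma W_remove (A S : Finset ℕ) (Q c t : ℕ) :
    W (A \ S) Q c t ≤ W A Q c t + Q * #(S ∩ Ico c t) := by
  have h1 : (Ico c t).filter (fun y => ∀ x ∈ A \ S, c ≤ x → x ≤ y → x + Q ≤ y) ⊆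
      (Ico c t).filter (fun y => ∀ x ∈ A, c ≤ x → x ≤ y → x + Q ≤ y) ∪
        (S ∩ Ico c t).biUnion (fun x => Ico x (x + Q)) := by
    intro y hy
    rw [Finset.mem_filter] at hy
    rw [Finset.mem_union, Finset.mem_filter, Finset.mem_biUnion]
    by_cases h : ∀ x ∈ A, c ≤ x → x ≤ y → x + Q ≤ y
    · exact Or.inl ⟨hy.1, h⟩
    · push Not at h
      obtain ⟨x, hx, hcx, hxy, hxQ⟩ := h
      refine Or.inr ⟨x, ?_, ?_⟩
      · rw [Finset.mem_inter]
        constructor
        · by_contra hxS
          have := hy.2 x (Finset.mem_sdiff.2 ⟨hx, hxS⟩) hcx hxy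
          omega
        · have := Finset.mem_Ico.1 hy.1
          rw [Finset.mem_Ico]
          omega
      · rw [Finset.mem_Ico]
        exact ⟨hxy, hxQ⟩
  have h2 := (Finset.card_le_card h1).trans (Finset.card_union_le _ _)
  have h3 : #((S ∩ Ico c t).biUnion (fun x => Ico x (x + Q))) ≤ #(S ∩ Ico c t) * Q := by
    apply Finset.card_biUnion_le_card_mul
    intro x _
    rw [Nat.card_Ico]
    omega
  unfold W
  rw [Nat.mul_comm Q]
  omega

/-- the deleted elements of `N` at the point `x` -/
noncomputable def Del (N C' : Finset ℕ) (n x : ℕ) : Finset ℕ :=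
  N.filter (fun m => x + m < n ∧ x + m ∉ C')

/-- the points of `C` which are bad for the base point `b` -/
noncomputable def Bad (N C C' : Finset ℕ) (n : ℕ) (g : ℝ) (b : ℕ) : Finset ℕ :=
  C.filter (fun x => b ∈ MX (Del N C' n x) (g / 4) n)

/-- the base points which are not decent -/
noncomputable def Nd (N C C' G : Finset ℕ) (n : ℕ) (g lam : ℝ) : Finset ℕ :=
  (range n).filter (fun y => (#G : ℝ) / 2 <
    #(G.filter (fun b => y ∈ MX (Bad N C C' n g b) lam n)))

lemma nd_card (N C C' G : Finset ℕ) (n : ℕ) (g lam del : ℝ) (hg : 0 < g) (hlam : 0 < lam)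
    (hdel : 0 ≤ del) (hC : C ⊆ range n) (hD : ∀ x ∈ C, (#(Del N C' n x) : ℝ) ≤ del * n) :
    (#(Nd N C C' G n g lam) : ℝ) * (#G / 2) * (lam * (g / 4)) ≤ n * (del * n) := by
  -- double counting
  have h1 : (#(Nd N C C' G n g lam) : ℝ) * (#G / 2) ≤
      ∑ y ∈ Nd N C C' G n g lam, (#(G.filter (fun b => y ∈ MX (Bad N C C' n g b) lam n)) : ℝ) := by
    rw [← nsmul_eq_mul]
    apply Finset.card_nsmul_le_sum
    intro y hy
    exact (Finset.mem_filter.1 hy).2.le
  have h2 : (∑ y ∈ Nd N C C' G n g lam,
        (#(G.filter (fun b => y ∈ MX (Bad N C C' n g b) lam n)) : ℝ)) ≤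
      ∑ b ∈ G, (#(MX (Bad N C C' n g b) lam n) : ℝ) := by
    have : ∑ y ∈ Nd N C C' G n g lam, #(G.filter (fun b => y ∈ MX (Bad N C C' n g b) lam n)) =
        ∑ b ∈ G, #((Nd N C C' G n g lam).filter (fun y => y ∈ MX (Bad N C C' n g b) lam n)) := by
      exact Finset.sum_card_bipartiteAbove_eq_sum_card_bipartiteBelow
        (fun y b => y ∈ MX (Bad N C C' n g b) lam n)
    have h : ∑ y ∈ Nd N C C' G n g lam, #(G.filter (fun b => y ∈ MX (Bad N C C' n g b) lam n)) ≤
        ∑ b ∈ G, #(MX (Bad N C C' n g b) lam n) := by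
      rw [this]
      apply Finset.sum_le_sum
      intro b _
      apply Finset.card_le_card
      intro y hy
      exact (Finset.mem_filter.1 hy).2
    exact_mod_cast h
  have h3 : lam * ∑ b ∈ G, (#(MX (Bad N C C' n g b) lam n) : ℝ) ≤
      ∑ b ∈ G, (#(Bad N C C' n g b) : ℝ) := by
    rw [Finset.mul_sum]
    apply Finset.sum_le_sum
    intro b _
    exact mx_le _ lam hlam.le n
  have h4 : (∑ b ∈ G, (#(Bad N C C' n g b) : ℝ)) ≤
      ∑ x ∈ C, (#(MX (Del N C' n x) (g / 4) n) : ℝ) := by
    have : ∑ b ∈ G, #(Bad N C C' n g b) =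
        ∑ x ∈ C, #(G.filter (fun b => b ∈ MX (Del N C' n x) (g / 4) n)) := by
      exact Finset.sum_card_bipartiteAbove_eq_sum_card_bipartiteBelow
        (fun b x => b ∈ MX (Del N C' n x) (g / 4) n)
    have h : ∑ b ∈ G, #(Bad N C C' n g b) ≤ ∑ x ∈ C, #(MX (Del N C' n x) (g / 4) n) := by
      rw [this]
      apply Finset.sum_le_sum
      intro x _
      apply Finset.card_le_card
      intro y hy
      exact (Finset.mem_filter.1 hy).2
    exact_mod_cast h
  have h5 : (g / 4) * ∑ x ∈ C, (#(MX (Del N C' n x) (g / 4) n) : ℝ) ≤ n * (del * n) := by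
    rw [Finset.mul_sum]
    calc ∑ x ∈ C, (g / 4) * (#(MX (Del N C' n x) (g / 4) n) : ℝ)
        ≤ ∑ x ∈ C, del * n := by
          apply Finset.sum_le_sum
          intro x hx
          exact (mx_le _ (g / 4) (by positivity) n).trans (hD x hx)
      _ = #C * (del * n) := by rw [Finset.sum_const, nsmul_eq_mul]
      _ ≤ n * (del * n) := by
          apply mul_le_mul_of_nonneg_right
          · have := Finset.card_le_card hC
            rw [Finset.card_range] at this
            exact_mod_cast this
          · positivity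
  have hg4 : 0 ≤ g / 4 := by positivity
  calc (#(Nd N C C' G n g lam) : ℝ) * (#G / 2) * (lam * (g / 4))
      = (lam * ((#(Nd N C C' G n g lam) : ℝ) * (#G / 2))) * (g / 4) := by ring
    _ ≤ (lam * ∑ b ∈ G, (#(MX (Bad N C C' n g b) lam n) : ℝ)) * (g / 4) := by
        apply mul_le_mul_of_nonneg_right _ hg4
        exact mul_le_mul_of_nonneg_left (h1.trans h2) hlam.le
    _ ≤ (∑ b ∈ G, (#(Bad N C C' n g b) : ℝ)) * (g / 4) :=
        mul_le_mul_of_nonneg_right h3 hg4
    _ ≤ (∑ x ∈ C, (#(MX (Del N C' n x) (g / 4) n) : ℝ)) * (g / 4) :=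
        mul_le_mul_of_nonneg_right h4 hg4
    _ = (g / 4) * ∑ x ∈ C, (#(MX (Del N C' n x) (g / 4) n) : ℝ) := by ring
    _ ≤ _ := h5

/-- one step of the induction -/
lemma step (N C C' : Finset ℕ) (n Q c b : ℕ) (g lam w : ℝ) (hg : 0 < g) (hg1 : g ≤ 1)
    (hlam1 : lam ≤ 1) (hQ : 8 ≤ g * Q) (hC : C ⊆ range n)
    (hcC : c ∈ C) (hbn : b < n)
    (hb : ∀ s : ℕ, b + s ≤ n → g / 2 * s ≤ #(N ∩ Ico b (b + s)))
    (hcb : c ∉ MX (Bad N C C' n g b) lam n)
    (hW : ∀ t : ℕ, c ≤ t → t ≤ n → (W C Q c t : ℝ) ≤ w * (t - c))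
    (hlt : c + b < n) :
    c + b ∈ C' ∧ ∀ t : ℕ, c + b ≤ t → t ≤ n →
      (W C' Q (c + b) t : ℝ) ≤ (1 - g / 8) * (w + Q * lam) * (t - (c + b : ℕ)) := by
  have hcn : c < n := Finset.mem_range.1 (hC hcC)
  -- density of the bad points
  have hbaddens : ∀ s : ℕ, 1 ≤ s → (#(Bad N C C' n g b ∩ Ico c (c + s)) : ℝ) < lam * s := by
    intro s hs
    by_contra hcon
    push Not at hcon
    exact hcb (Finset.mem_filter.2 ⟨Finset.mem_range.2 hcn, s, hs, hcon⟩)
  have hcbad : c ∉ Bad N C C' n g b := by
    intro hmem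
    have h1 := hbaddens 1 le_rfl
    have h2 : 1 ≤ #(Bad N C C' n g b ∩ Ico c (c + 1)) := by
      apply Finset.card_pos.2
      exact ⟨c, Finset.mem_inter.2 ⟨hmem, Finset.mem_Ico.2 ⟨le_rfl, by omega⟩⟩⟩
    have h3 : (1 : ℝ) ≤ #(Bad N C C' n g b ∩ Ico c (c + 1)) := by exact_mod_cast h2
    push_cast at h1
    linarith
  set A := (C.filter (fun x => c ≤ x)) \ Bad N C C' n g b with hA
  have hcA : c ∈ A :=
    Finset.mem_sdiff.2 ⟨Finset.mem_filter.2 ⟨hcC, le_rfl⟩, hcbad⟩
  have hAc : ∀ a ∈ A, c ≤ a := fun a ha =>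
    (Finset.mem_filter.1 (Finset.mem_sdiff.1 ha).1).2
  have hfill : ∀ a ∈ A, ∀ l : ℕ, 1 ≤ l → a + l ≤ n - b →
      g / 4 * l ≤ #(C' ∩ Ico (a + b) (a + b + l)) := by
    intro a ha l hl hal
    have haC : a ∈ C := (Finset.mem_filter.1 (Finset.mem_sdiff.1 ha).1).1
    have hab : a ∉ Bad N C C' n g b := (Finset.mem_sdiff.1 ha).2
    have hX : b ∉ MX (Del N C' n a) (g / 4) n := fun h =>
      hab (Finset.mem_filter.2 ⟨haC, h⟩)
    have h1 : (#(Del N C' n a ∩ Ico b (b + l)) : ℝ) < g / 4 * l := by
      by_contra hcon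
      push Not at hcon
      exact hX (Finset.mem_filter.2 ⟨Finset.mem_range.2 hbn, l, hl, hcon⟩)
    have h2 := hb l (by omega)
    have h3 : #(N ∩ Ico b (b + l)) ≤ #(Del N C' n a ∩ Ico b (b + l)) +
        #(C' ∩ Ico (a + b) (a + b + l)) := by
      have h4 : N ∩ Ico b (b + l) ⊆ (Del N C' n a ∩ Ico b (b + l)) ∪
          ((N ∩ Ico b (b + l)).filter (fun m => a + m ∈ C')) := by
        intro m hm
        rw [Finset.mem_inter] at hm
        rw [Finset.mem_union, Finset.mem_inter, Finset.mem_filter, Finset.mem_inter]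
        by_cases h : a + m ∈ C'
        · exact Or.inr ⟨hm, h⟩
        · refine Or.inl ⟨Finset.mem_filter.2 ⟨hm.1, ?_, h⟩, hm.2⟩
          have := Finset.mem_Ico.1 hm.2
          omega
      have h5 : #((N ∩ Ico b (b + l)).filter (fun m => a + m ∈ C')) ≤
          #(C' ∩ Ico (a + b) (a + b + l)) := by
        apply Finset.card_le_card_of_injOn (fun m => a + m)
        · intro m hm
          rw [Finset.mem_coe, Finset.mem_filter, Finset.mem_inter, Finset.mem_Ico] at hm
          show a + m ∈ ((C' ∩ Ico (a + b) (a + b + l) : Finset ℕ) : Set ℕ)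
          rw [Finset.mem_coe, Finset.mem_inter, Finset.mem_Ico]
          exact ⟨hm.2, by omega, by omega⟩
        · intro m _ m' _ h
          simpa using h
      have h6 := (Finset.card_le_card h4).trans (Finset.card_union_le _ _)
      omega
    have h3' : (#(N ∩ Ico b (b + l)) : ℝ) ≤ #(Del N C' n a ∩ Ico b (b + l)) +
        #(C' ∩ Ico (a + b) (a + b + l)) := by exact_mod_cast h3
    linarith
  constructor
  · have h1 := hfill c hcA 1 le_rfl (by omega)
    have h2 : 0 < (#(C' ∩ Ico (c + b) (c + b + 1)) : ℝ) := by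
      have : 0 < g / 4 * ((1 : ℕ) : ℝ) := by
        push_cast
        linarith
      linarith
    have h3 : 0 < #(C' ∩ Ico (c + b) (c + b + 1)) := by exact_mod_cast h2
    obtain ⟨z, hz⟩ := Finset.card_pos.1 h3
    rw [Finset.mem_inter, Finset.mem_Ico] at hz
    have : z = c + b := by omega
    rw [← this]
    exact hz.1
  · intro t ht1 ht2
    have hgs := gap_step A C' Q c b (n - b) g hg hQ hcA hAc hfill (t - b) (by omega) (by omega)
    have htb : t - b + b = t := by omega
    rw [htb] at hgs
    have hrem := W_remove (C.filter (fun x => c ≤ x)) (Bad N C C' n g b) Q c (t - b)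
    have hWC : W (C.filter (fun x => c ≤ x)) Q c (t - b) = W C Q c (t - b) := by
      unfold W
      congr 1
      apply Finset.filter_congr
      intro y _
      constructor
      · intro h x hx hcx
        exact h x (Finset.mem_filter.2 ⟨hx, hcx⟩) hcx
      · intro h x hx hcx
        exact h x (Finset.mem_filter.1 hx).1 hcx
    rw [hWC] at hrem
    have hW' := hW (t - b) (by omega) (by omega)
    have hcast : ((t - b : ℕ) : ℝ) = (t : ℝ) - b := by
      rw [Nat.cast_sub (by omega)]
    have hbd : (#(Bad N C C' n g b ∩ Ico c (t - b)) : ℝ) ≤ lam * ((t : ℝ) - b - c) := by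
      rcases Nat.eq_zero_or_pos (t - b - c) with h | h
      · have h1 : Ico c (t - b) = ∅ := Finset.Ico_eq_empty (by omega)
        rw [h1, Finset.inter_empty, Finset.card_empty]
        have h2 : (t : ℝ) - b - c = 0 := by
          have : t = b + c := by omega
          rw [this]
          push_cast
          ring
        rw [h2]
        simp
      · have h1 := hbaddens (t - b - c) h
        have h2 : c + (t - b - c) = t - b := by omega
        rw [h2] at h1
        have h3 : ((t - b - c : ℕ) : ℝ) = (t : ℝ) - b - c := by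
          rw [Nat.cast_sub (by omega), Nat.cast_sub (by omega)]
        rw [h3] at h1
        exact h1.le
    have hrem' : (W A Q c (t - b) : ℝ) ≤ W C Q c (t - b) +
        Q * #(Bad N C C' n g b ∩ Ico c (t - b)) := by exact_mod_cast hrem
    rw [hcast] at hW'
    have hg8 : 0 ≤ 1 - g / 8 := by linarith
    have hQ0 : (0 : ℝ) ≤ Q := Nat.cast_nonneg _
    have h5 : (W A Q c (t - b) : ℝ) ≤ (w + Q * lam) * ((t : ℝ) - b - c) := by
      have := mul_le_mul_of_nonneg_left hbd hQ0
      have e : (w + Q * lam) * ((t : ℝ) - b - c) =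
          w * ((t : ℝ) - b - c) + Q * (lam * ((t : ℝ) - b - c)) := by ring
      rw [e]
      linarith
    calc (W C' Q (c + b) t : ℝ) ≤ (1 - g / 8) * W A Q c (t - b) := hgs
      _ ≤ (1 - g / 8) * ((w + Q * lam) * ((t : ℝ) - b - c)) :=
          mul_le_mul_of_nonneg_left h5 hg8
      _ = (1 - g / 8) * (w + Q * lam) * (t - (c + b : ℕ)) := by
          push_cast
          ring

/-- the robust covering theorem -/
theorem robust (n J Q R : ℕ) (g lam del : ℝ) (N C : ℕ → Finset ℕ) (hg : 0 < g) (hg1 : g ≤ 1)
    (hlam : 0 < lam) (hlam1 : lam ≤ 1) (hdel : 0 ≤ del) (hQ : 8 ≤ g * Q) (hR : 0 < R)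
    (hJR : J * R < n) (hJ : 0 < J)
    (hN : ∀ k < J, ∀ r : ℕ, R ≤ r → r ≤ n → g * r ≤ #(N k ∩ Ico 0 r))
    (hD : ∀ k < J, ∀ x ∈ C k, (#(Del (N k) (C (k + 1)) n x) : ℝ) ≤ del * n)
    (hC0 : C 0 = {0}) (hCn : ∀ k, C k ⊆ range n)
    (hsm : 64 * del * n * n < g ^ 3 * lam * R ^ 2) :
    (#((range n).filter (fun y => ∀ x ∈ C J, x ≤ y → x + Q ≤ y)) : ℝ) ≤
      J * R + ((1 - g / 8) ^ J + 8 * Q * lam / g) * n := by
  have hRn : R ≤ n := by
    calc R ≤ J * R := Nat.le_mul_of_pos_left R hJ
      _ ≤ n := hJR.le
  have hn0 : 0 < n := lt_of_lt_of_le hR hRn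
  have hRr : (0 : ℝ) < R := by exact_mod_cast hR
  have hnr : (0 : ℝ) < n := by exact_mod_cast hn0
  have hRnr : (R : ℝ) ≤ n := by exact_mod_cast hRn
  -- good points
  have hG : ∀ k < J, g / 2 * R ≤ #(GP (N k) n R (g / 2)) := fun k hk =>
    gp_card (N k) n R g hg hRn (hN k hk)
  have hNd : ∀ k < J, (#(Nd (N k) (C k) (C (k + 1)) (GP (N k) n R (g / 2)) n g lam) : ℝ) <
      g / 4 * R := by
    intro k hk
    by_contra hcon
    push Not at hcon
    have h1 := nd_card (N k) (C k) (C (k + 1)) (GP (N k) n R (g / 2)) n g lam del hg hlam hdel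
      (hCn k) (hD k hk)
    have h2 := hG k hk
    have h3 : g / 4 * R * (g / 4 * R) ≤
        (#(Nd (N k) (C k) (C (k + 1)) (GP (N k) n R (g / 2)) n g lam) : ℝ) *
          (#(GP (N k) n R (g / 2)) / 2) := by
      apply mul_le_mul hcon
      · linarith
      · positivity
      · positivity
    have hlg : 0 < lam * (g / 4) := by positivity
    have h4 := mul_le_mul_of_nonneg_right h3 hlg.le
    have h5 : g / 4 * R * (g / 4 * R) * (lam * (g / 4)) ≤ n * (del * n) := h4.trans h1
    have h6 : g / 4 * R * (g / 4 * R) * (lam * (g / 4)) = g ^ 3 * lam * R ^ 2 / 64 := by ring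
    rw [h6] at h5
    nlinarith
  have main : ∀ k : ℕ, k ≤ J → ∃ c : ℕ, c ≤ k * R ∧ c ∈ C k ∧
      (k < J → (#((GP (N k) n R (g / 2)).filter
        (fun b => c ∈ MX (Bad (N k) (C k) (C (k + 1)) n g b) lam n)) : ℝ) ≤
          (#(GP (N k) n R (g / 2)) : ℝ) / 2) ∧
      ∀ t : ℕ, c ≤ t → t ≤ n →
        (W (C k) Q c t : ℝ) ≤ ((1 - g / 8) ^ k + 8 * Q * lam / g) * (t - c) := by
    intro k
    induction k with
    | zero =>
      intro _
      refine ⟨0, by omega, ?_, ?_, ?_⟩
      · rw [hC0]
        exact Finset.mem_singleton_self 0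
      · intro h0
        -- a base point which is bad for `0` belongs to a small set
        have h1 : (GP (N 0) n R (g / 2)).filter
            (fun b => 0 ∈ MX (Bad (N 0) (C 0) (C (0 + 1)) n g b) lam n) ⊆
            MX (Del (N 0) (C (0 + 1)) n 0) (g / 4) n := by
          intro b hb
          obtain ⟨_, hb2⟩ := Finset.mem_filter.1 hb
          obtain ⟨_, s, hs1, hs⟩ := Finset.mem_filter.1 hb2
          have hne : (Bad (N 0) (C 0) (C (0 + 1)) n g b).Nonempty := by
            rw [Finset.nonempty_iff_ne_empty]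
            intro hemp
            rw [hemp, Finset.empty_inter, Finset.card_empty] at hs
            have hs' : (1 : ℝ) ≤ s := by exact_mod_cast hs1
            have : 0 < lam * s := by positivity
            push_cast at hs
            linarith
          obtain ⟨x, hx⟩ := hne
          obtain ⟨hx1, hx2⟩ := Finset.mem_filter.1 hx
          rw [hC0, Finset.mem_singleton] at hx1
          rw [hx1] at hx2
          exact hx2
        have h2 : (g / 4) * #(MX (Del (N 0) (C (0 + 1)) n 0) (g / 4) n) ≤ del * n := by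
          refine (mx_le _ (g / 4) (by positivity) n).trans (hD 0 h0 0 ?_)
          rw [hC0]
          exact Finset.mem_singleton_self 0
        have h3 : (#((GP (N 0) n R (g / 2)).filter
            (fun b => 0 ∈ MX (Bad (N 0) (C 0) (C (0 + 1)) n g b) lam n)) : ℝ) ≤
            #(MX (Del (N 0) (C (0 + 1)) n 0) (g / 4) n) := by
          exact_mod_cast Finset.card_le_card h1
        have h4 := hG 0 h0
        -- 16 del n ≤ g^2 R
        have h5 : 16 * del * n ≤ g ^ 2 * R := by
          have h6 : g ^ 3 * lam * R ^ 2 ≤ g ^ 2 * R * n := by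
            have e1 : g ^ 3 * lam * R ^ 2 = (g ^ 2 * R) * ((g * lam) * R) := by ring
            rw [e1]
            apply mul_le_mul_of_nonneg_left _ (by positivity)
            have e2 : g * lam ≤ 1 := by
              calc g * lam ≤ 1 * 1 := mul_le_mul hg1 hlam1 hlam.le (by norm_num)
                _ = 1 := by norm_num
            calc (g * lam) * R ≤ 1 * R := mul_le_mul_of_nonneg_right e2 hRr.le
              _ ≤ n := by linarith
          have h7 : 64 * del * n * n ≤ g ^ 2 * R * n := hsm.le.trans h6
          have h8 : 64 * del * n ≤ g ^ 2 * R := le_of_mul_le_mul_right h7 hnr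
          have h9 : 0 ≤ del * n := by positivity
          linarith
        have h10 : (g / 4) * (#((GP (N 0) n R (g / 2)).filter
            (fun b => 0 ∈ MX (Bad (N 0) (C 0) (C (0 + 1)) n g b) lam n)) : ℝ) ≤ (g / 4) *
            ((#(GP (N 0) n R (g / 2)) : ℝ) / 2) := by
          calc (g / 4) * (#((GP (N 0) n R (g / 2)).filter
            (fun b => 0 ∈ MX (Bad (N 0) (C 0) (C (0 + 1)) n g b) lam n)) : ℝ)
              ≤ (g / 4) * #(MX (Del (N 0) (C (0 + 1)) n 0) (g / 4) n) :=
                mul_le_mul_of_nonneg_left h3 (by positivity)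
            _ ≤ del * n := h2
            _ ≤ (g / 4) * ((g / 2 * R) / 2) := by
                have e : (g / 4) * ((g / 2 * R) / 2) = g ^ 2 * R / 16 := by ring
                rw [e]
                linarith
            _ ≤ _ := by
                apply mul_le_mul_of_nonneg_left _ (by positivity)
                linarith
        exact le_of_mul_le_mul_left h10 (by positivity)
      · intro t _ _
        have h1 : (W (C 0) Q 0 t : ℝ) ≤ t := by
          have : W (C 0) Q 0 t ≤ t := by
            unfold W
            refine (Finset.card_filter_le _ _).trans ?_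
            simp
          exact_mod_cast this
        have h2 : 0 ≤ 8 * Q * lam / g * (t : ℝ) := by positivity
        push_cast
        rw [pow_zero, sub_zero, add_mul, one_mul]
        linarith
    | succ k ih =>
      intro hk
      obtain ⟨c, hcR, hcC, hdec, hW⟩ := ih (by omega)
      have hkJ : k < J := by omega
      have hdec' := hdec hkJ
      -- choose the base point
      have hG' := hG k hkJ
      have hexist : ∃ b ∈ GP (N k) n R (g / 2),
          c ∉ MX (Bad (N k) (C k) (C (k + 1)) n g b) lam n ∧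
          (k + 1 < J → c + b ∉ Nd (N (k + 1)) (C (k + 1)) (C (k + 1 + 1))
            (GP (N (k + 1)) n R (g / 2)) n g lam) := by
        by_contra hcon
        push Not at hcon
        have hsub : GP (N k) n R (g / 2) ⊆ (GP (N k) n R (g / 2)).filter
            (fun b => c ∈ MX (Bad (N k) (C k) (C (k + 1)) n g b) lam n) ∪
            (GP (N k) n R (g / 2)).filter (fun b => k + 1 < J ∧
              c + b ∈ Nd (N (k + 1)) (C (k + 1)) (C (k + 1 + 1))
              (GP (N (k + 1)) n R (g / 2)) n g lam) := by
          intro b hb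
          rw [Finset.mem_union, Finset.mem_filter, Finset.mem_filter]
          by_cases h : c ∈ MX (Bad (N k) (C k) (C (k + 1)) n g b) lam n
          · exact Or.inl ⟨hb, h⟩
          · exact Or.inr ⟨hb, hcon b hb h⟩
        have h1 := (Finset.card_le_card hsub).trans (Finset.card_union_le _ _)
        have h2 : (#((GP (N k) n R (g / 2)).filter (fun b => k + 1 < J ∧
              c + b ∈ Nd (N (k + 1)) (C (k + 1)) (C (k + 1 + 1))
              (GP (N (k + 1)) n R (g / 2)) n g lam)) : ℝ) < g / 4 * R := by
          by_cases hk1 : k + 1 < J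
          · have h3 : #((GP (N k) n R (g / 2)).filter (fun b => k + 1 < J ∧
              c + b ∈ Nd (N (k + 1)) (C (k + 1)) (C (k + 1 + 1))
              (GP (N (k + 1)) n R (g / 2)) n g lam)) ≤
              #(Nd (N (k + 1)) (C (k + 1)) (C (k + 1 + 1))
              (GP (N (k + 1)) n R (g / 2)) n g lam) := by
              apply Finset.card_le_card_of_injOn (fun b => c + b)
              · intro b hb
                rw [Finset.mem_coe, Finset.mem_filter] at hb
                exact hb.2.2
              · intro b _ b' _ h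
                simpa using h
            have h4 : (#((GP (N k) n R (g / 2)).filter (fun b => k + 1 < J ∧
              c + b ∈ Nd (N (k + 1)) (C (k + 1)) (C (k + 1 + 1))
              (GP (N (k + 1)) n R (g / 2)) n g lam)) : ℝ) ≤
              #(Nd (N (k + 1)) (C (k + 1)) (C (k + 1 + 1))
              (GP (N (k + 1)) n R (g / 2)) n g lam) := by exact_mod_cast h3
            exact lt_of_le_of_lt h4 (hNd (k + 1) hk1)
          · have h3 : (GP (N k) n R (g / 2)).filter (fun b => k + 1 < J ∧
              c + b ∈ Nd (N (k + 1)) (C (k + 1)) (C (k + 1 + 1))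
              (GP (N (k + 1)) n R (g / 2)) n g lam) = ∅ := by
              apply Finset.filter_eq_empty_iff.2
              intro b _ h
              exact hk1 h.1
            rw [h3, Finset.card_empty]
            push_cast
            positivity
        have h1' : (#(GP (N k) n R (g / 2)) : ℝ) ≤ #((GP (N k) n R (g / 2)).filter
            (fun b => c ∈ MX (Bad (N k) (C k) (C (k + 1)) n g b) lam n)) +
            #((GP (N k) n R (g / 2)).filter (fun b => k + 1 < J ∧
              c + b ∈ Nd (N (k + 1)) (C (k + 1)) (C (k + 1 + 1))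
              (GP (N (k + 1)) n R (g / 2)) n g lam)) := by exact_mod_cast h1
        linarith
      obtain ⟨b, hbG, hb1, hb2⟩ := hexist
      obtain ⟨hbR, hbgood⟩ := Finset.mem_filter.1 hbG
      rw [Finset.mem_range] at hbR
      have hcb : c + b < (k + 1) * R := by
        rw [Nat.add_mul, Nat.one_mul]
        omega
      have hcbn : c + b < n := by
        have : (k + 1) * R ≤ J * R := Nat.mul_le_mul_right R hk
        omega
      obtain ⟨hs1, hs2⟩ := step (N k) (C k) (C (k + 1)) n Q c b g lam
        ((1 - g / 8) ^ k + 8 * Q * lam / g) hg hg1 hlam1 hQ (hCn k) hcC (by omega) hbgood hb1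
        hW hcbn
      refine ⟨c + b, hcb.le, hs1, ?_, ?_⟩
      · intro hk1
        have h := hb2 hk1
        by_contra hcon
        push Not at hcon
        exact h (Finset.mem_filter.2 ⟨Finset.mem_range.2 hcbn, hcon⟩)
      · intro t ht1 ht2
        refine (hs2 t ht1 ht2).trans ?_
        apply mul_le_mul_of_nonneg_right
        · have e : (1 - g / 8) * ((1 - g / 8) ^ k + 8 * Q * lam / g + Q * lam) =
              (1 - g / 8) ^ (k + 1) + 8 * Q * lam / g - g / 8 * (Q * lam) := by
            field_simp
            ring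
          rw [e]
          have : 0 ≤ g / 8 * (Q * lam) := by positivity
          linarith
        · have : ((c + b : ℕ) : ℝ) ≤ t := by exact_mod_cast ht1
          linarith
  obtain ⟨c, hcR, hcC, _, hW⟩ := main J le_rfl
  have hcn : c < n := Finset.mem_range.1 (hCn J hcC)
  have h1 := hW n hcn.le le_rfl
  have h2 : (range n).filter (fun y => ∀ x ∈ C J, x ≤ y → x + Q ≤ y) ⊆
      range c ∪ (Ico c n).filter (fun y => ∀ x ∈ C J, c ≤ x → x ≤ y → x + Q ≤ y) := by
    intro y hy
    rw [Finset.mem_filter, Finset.mem_range] at hy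
    rw [Finset.mem_union, Finset.mem_range, Finset.mem_filter, Finset.mem_Ico]
    by_cases h : y < c
    · exact Or.inl h
    · exact Or.inr ⟨⟨by omega, hy.1⟩, fun x hx _ hxy => hy.2 x hx hxy⟩
  have h3 := (Finset.card_le_card h2).trans (Finset.card_union_le _ _)
  rw [Finset.card_range] at h3
  have h3' : (#((range n).filter (fun y => ∀ x ∈ C J, x ≤ y → x + Q ≤ y)) : ℝ) ≤
      c + W (C J) Q c n := by
    unfold W
    exact_mod_cast h3
  have h4 : (c : ℝ) ≤ J * R := by exact_mod_cast hcR
  have hw0 : 0 ≤ (1 - g / 8) ^ J + 8 * Q * lam / g := by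
    have : 0 ≤ 1 - g / 8 := by linarith
    positivity
  have h5 : ((1 - g / 8) ^ J + 8 * Q * lam / g) * ((n : ℝ) - c) ≤
      ((1 - g / 8) ^ J + 8 * Q * lam / g) * n := by
    apply mul_le_mul_of_nonneg_left _ hw0
    have : (0 : ℝ) ≤ c := Nat.cast_nonneg _
    linarith
  linarith

/-- weighted number of tuples, recursively -/
noncomputable def U (T : Set ℕ) (N : ℕ → Finset ℕ) : ℕ → ℕ → ℕ → ℕ
  | 0, _, x => if x ∈ T then 1 else 0
  | j + 1, k, x => ∑ m ∈ N k, U T N j (k + 1) (x + m)

lemma U_card (T : Set ℕ) (N : ℕ → Finset ℕ) : ∀ j k x : ℕ,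
    #((Fintype.piFinset (fun i : Fin j => N (k + i))).filter (fun m => x + ∑ i, m i ∈ T)) =
      U T N j k x := by
  intro j
  induction j with
  | zero =>
    intro k x
    unfold U
    split_ifs with h
    · rw [Finset.card_eq_one]
      refine ⟨fun i => i.elim0, ?_⟩
      ext m
      rw [Finset.mem_filter, Finset.mem_singleton, Fintype.mem_piFinset]
      constructor
      · intro _
        funext i
        exact i.elim0
      · intro _
        refine ⟨fun i => i.elim0, ?_⟩
        simpa using h
    · rw [Finset.card_eq_zero, Finset.filter_eq_empty_iff]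
      intro m _ hm
      apply h
      simpa using hm
  | succ j ih =>
    intro k x
    unfold U
    rw [Finset.card_eq_sum_card_fiberwise (f := fun m : Fin (j + 1) → ℕ => m 0) (t := N k)]
    · apply Finset.sum_congr rfl
      intro a ha
      rw [← ih (k + 1) (x + a)]
      refine Finset.card_bij' (fun m _ => Fin.tail m) (fun m _ => Fin.cons a m) ?_ ?_ ?_ ?_
      · intro m hm
        rw [Finset.mem_filter, Finset.mem_filter, Fintype.mem_piFinset] at hm
        rw [Finset.mem_filter, Fintype.mem_piFinset]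
        obtain ⟨⟨h1, h2⟩, h3⟩ := hm
        refine ⟨fun i => ?_, ?_⟩
        · have := h1 i.succ
          rw [Fin.val_succ] at this
          rw [show k + 1 + (i : ℕ) = k + ((i : ℕ) + 1) by omega]
          exact this
        · rw [Fin.sum_univ_succ, h3] at h2
          rw [Nat.add_assoc]
          exact h2
      · intro m hm
        rw [Finset.mem_filter, Fintype.mem_piFinset] at hm
        rw [Finset.mem_filter, Finset.mem_filter, Fintype.mem_piFinset]
        obtain ⟨h1, h2⟩ := hm
        refine ⟨⟨fun i => ?_, ?_⟩, ?_⟩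
        · refine Fin.cases ?_ (fun i => ?_) i
          · simpa using ha
          · have := h1 i
            rw [show k + 1 + (i : ℕ) = k + ((i : ℕ) + 1) by omega] at this
            simpa using this
        · rw [Fin.sum_univ_succ]
          simp only [Fin.cons_zero, Fin.cons_succ]
          rw [← Nat.add_assoc]
          exact h2
        · rfl
      · intro m hm
        have h3 : m 0 = a := (Finset.mem_filter.1 hm).2
        rw [← h3]
        exact Fin.cons_self_tail m
      · intro m _
        funext i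
        rfl
    · intro m hm
      rw [Finset.mem_coe, Finset.mem_filter, Fintype.mem_piFinset] at hm
      have := hm.1 0
      simpa using this

/-- **COMB**, the version for sequences of sets -/
theorem comb_seq (n J Q R : ℕ) (g lam del : ℝ) (N : ℕ → Finset ℕ) (D : Finset ℕ)
    (hg : 0 < g) (hg1 : g ≤ 1)
    (hlam : 0 < lam) (hlam1 : lam ≤ 1) (hdel : 0 < del) (hQ : 8 ≤ g * Q) (hR : 0 < R)
    (hJR : J * R < n) (hJ : 0 < J)
    (hN : ∀ k < J, ∀ r : ℕ, R ≤ r → r ≤ n → g * r ≤ #(N k ∩ Ico 0 r))
    (hsm : 64 * del * n * n < g ^ 3 * lam * R ^ 2)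
    (hDn : D ⊆ range n)
    (hDc : J * R + ((1 - g / 8) ^ J + 8 * Q * lam / g) * n < #D) :
    (del * n) ^ J ≤ (U {x | ∃ d ∈ D, x ≤ d ∧ d < x + Q} N J 0 0 : ℝ) := by
  by_contra hcon
  push Not at hcon
  have hRn : R ≤ n := by
    calc R ≤ J * R := Nat.le_mul_of_pos_left R hJ
      _ ≤ n := hJR.le
  have hn0 : 0 < n := lt_of_lt_of_le hR hRn
  have hnr : (0 : ℝ) < n := by exact_mod_cast hn0
  set T : Set ℕ := {x | ∃ d ∈ D, x ≤ d ∧ d < x + Q} with hT
  set C : ℕ → Finset ℕ := fun k => if k = 0 then {0} else
    (range n).filter (fun x => (U T N (J - k) k x : ℝ) < (del * n) ^ (J - k)) with hC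
  have hCmem : ∀ k, ∀ x ∈ C k, (U T N (J - k) k x : ℝ) < (del * n) ^ (J - k) := by
    intro k x hx
    by_cases hk : k = 0
    · subst hk
      have h0 : x = 0 := by
        have : x ∈ ({0} : Finset ℕ) := by simpa [hC] using hx
        exact Finset.mem_singleton.1 this
      rw [h0]
      exact hcon
    · have : x ∈ (range n).filter (fun x => (U T N (J - k) k x : ℝ) < (del * n) ^ (J - k)) := by
        simpa only [hC, hk, if_false] using hx
      exact (Finset.mem_filter.1 this).2
  have hCn : ∀ k, C k ⊆ range n := by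
    intro k x hx
    by_cases hk : k = 0
    · have h0 : x = 0 := by
        have : x ∈ ({0} : Finset ℕ) := by simpa [hC, hk] using hx
        exact Finset.mem_singleton.1 this
      rw [h0]
      exact Finset.mem_range.2 hn0
    · have : x ∈ (range n).filter (fun x => (U T N (J - k) k x : ℝ) < (del * n) ^ (J - k)) := by
        simpa only [hC, hk, if_false] using hx
      exact (Finset.mem_filter.1 this).1
  have hnot : ∀ k x, x < n → x ∉ C (k + 1) →
      (del * n) ^ (J - (k + 1)) ≤ (U T N (J - (k + 1)) (k + 1) x : ℝ) := by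
    intro k x hx hxC
    by_contra hlt
    push Not at hlt
    apply hxC
    have : x ∈ (range n).filter
        (fun x => (U T N (J - (k + 1)) (k + 1) x : ℝ) < (del * n) ^ (J - (k + 1))) :=
      Finset.mem_filter.2 ⟨Finset.mem_range.2 hx, hlt⟩
    simpa only [hC, Nat.succ_ne_zero, if_false] using this
  have hDel : ∀ k < J, ∀ x ∈ C k, (#(Del (N k) (C (k + 1)) n x) : ℝ) ≤ del * n := by
    intro k hk x hx
    have h1 := hCmem k x hx
    obtain ⟨j, hj⟩ : ∃ j, J - k = j + 1 := ⟨J - k - 1, by omega⟩
    have hj' : J - (k + 1) = j := by omega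
    have h2 : (#(Del (N k) (C (k + 1)) n x) : ℝ) * (del * n) ^ j ≤
        (U T N (j + 1) k x : ℝ) := by
      have e : (U T N (j + 1) k x : ℝ) = ∑ m ∈ N k, (U T N j (k + 1) (x + m) : ℝ) := by
        rw [U]
        push_cast
        rfl
      rw [e]
      calc (#(Del (N k) (C (k + 1)) n x) : ℝ) * (del * n) ^ j
          = ∑ m ∈ Del (N k) (C (k + 1)) n x, (del * n) ^ j := by
            rw [Finset.sum_const, nsmul_eq_mul]
        _ ≤ ∑ m ∈ Del (N k) (C (k + 1)) n x, (U T N j (k + 1) (x + m) : ℝ) := by
            apply Finset.sum_le_sum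
            intro m hm
            obtain ⟨_, hm1, hm2⟩ := Finset.mem_filter.1 hm
            have := hnot k (x + m) hm1 hm2
            rw [hj'] at this
            exact this
        _ ≤ _ := by
            apply Finset.sum_le_sum_of_subset_of_nonneg (Finset.filter_subset _ _)
            intro m _ _
            exact Nat.cast_nonneg _
    rw [hj] at h1
    have hpos : 0 < (del * n) ^ j := by positivity
    have h3 : (#(Del (N k) (C (k + 1)) n x) : ℝ) * (del * n) ^ j < (del * n) * (del * n) ^ j := by
      calc _ ≤ _ := h2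
        _ < (del * n) ^ (j + 1) := h1
        _ = _ := by ring
    exact (lt_of_mul_lt_mul_right h3 hpos.le).le
  have hrob := robust n J Q R g lam del N C hg hg1 hlam hlam1 hdel.le hQ hR hJR hJ hN hDel
    (by simp [hC]) hCn hsm
  have hsub : D ⊆ (range n).filter (fun y => ∀ x ∈ C J, x ≤ y → x + Q ≤ y) := by
    intro y hy
    refine Finset.mem_filter.2 ⟨hDn hy, ?_⟩
    intro x hx hxy
    by_contra hlt
    push Not at hlt
    have h1 := hCmem J x hx
    have hxT : x ∈ T := ⟨y, hy, hxy, hlt⟩
    rw [Nat.sub_self] at h1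
    unfold U at h1
    rw [if_pos hxT] at h1
    simp at h1
  have h2 : (#D : ℝ) ≤ #((range n).filter (fun y => ∀ x ∈ C J, x ≤ y → x + Q ≤ y)) := by
    exact_mod_cast Finset.card_le_card hsub
  linarith

/-- **COMB.**  For every `g > 0` there is `Q` such that for every `eps > 0`, all large `J`,
some `c, eta > 0` and all large `n`: if `N_1, ..., N_J` satisfy `|N_i ∩ [0,r)| ≥ g r` for
`eta n ≤ r ≤ n` and `D ⊆ [0,n)` has at least `eps n` elements, then at least `c n^J` tuples
`m_i ∈ N_i` satisfy `∑ m_i ≤ d < ∑ m_i + Q` for some `d ∈ D`. -/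
theorem comb (g : ℝ) (hg : 0 < g) (hg1 : g ≤ 1) : ∃ Q : ℕ, ∀ eps : ℝ, 0 < eps →
    ∃ J0 : ℕ, ∀ J : ℕ, J0 ≤ J → ∃ c : ℝ, 0 < c ∧ ∃ eta : ℝ, 0 < eta ∧ ∃ n0 : ℕ,
    ∀ n : ℕ, n0 ≤ n → ∀ (N : Fin J → Finset ℕ) (D : Finset ℕ),
    (∀ i, ∀ r : ℕ, eta * n ≤ r → r ≤ n → g * r ≤ #((N i).filter (fun m => m < r))) →
    D ⊆ range n → eps * n ≤ #D →
    c * n ^ J ≤ #((Fintype.piFinset N).filter
      (fun m => ∃ d ∈ D, ∑ i, m i ≤ d ∧ d < ∑ i, m i + Q)) := by
  obtain ⟨Q, hQ⟩ := exists_nat_ge (8 / g)
  have hQ8 : 8 ≤ g * Q := by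
    rw [div_le_iff₀ hg] at hQ
    linarith
  have hQ0 : (0 : ℝ) < Q := by
    by_contra hcon
    push Not at hcon
    have : (Q : ℝ) = 0 := le_antisymm hcon (Nat.cast_nonneg _)
    rw [this] at hQ8
    linarith
  refine ⟨Q, ?_⟩
  -- it suffices to treat eps ≤ 1
  suffices H : ∀ eps : ℝ, 0 < eps → eps ≤ 1 → ∃ J0 : ℕ, ∀ J : ℕ, J0 ≤ J → ∃ c : ℝ, 0 < c ∧
      ∃ eta : ℝ, 0 < eta ∧ ∃ n0 : ℕ, ∀ n : ℕ, n0 ≤ n → ∀ (N : Fin J → Finset ℕ) (D : Finset ℕ),
      (∀ i, ∀ r : ℕ, eta * n ≤ r → r ≤ n → g * r ≤ #((N i).filter (fun m => m < r))) →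
      D ⊆ range n → eps * n ≤ #D →
      c * n ^ J ≤ #((Fintype.piFinset N).filter
        (fun m => ∃ d ∈ D, ∑ i, m i ≤ d ∧ d < ∑ i, m i + Q)) by
    intro eps heps
    obtain ⟨J0, h⟩ := H (min eps 1) (lt_min heps one_pos) (min_le_right _ _)
    refine ⟨J0, fun J hJ => ?_⟩
    obtain ⟨c, hc, eta, heta, n0, h'⟩ := h J hJ
    refine ⟨c, hc, eta, heta, n0, fun n hn N D h1 h2 h3 => h' n hn N D h1 h2 ?_⟩
    have : min eps 1 * (n : ℝ) ≤ eps * n :=
      mul_le_mul_of_nonneg_right (min_le_left _ _) (Nat.cast_nonneg _)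
    linarith
  intro eps heps heps1
  have h18 : 0 ≤ 1 - g / 8 := by linarith
  have h18' : 1 - g / 8 < 1 := by linarith
  obtain ⟨J0, hJ0⟩ := exists_pow_lt_of_lt_one (show 0 < eps / 4 by positivity) h18'
  refine ⟨J0 + 1, fun J hJ => ?_⟩
  have hJpos : 0 < J := by omega
  have hJr : (0 : ℝ) < J := by exact_mod_cast hJpos
  have hJr1 : (1 : ℝ) ≤ J := by exact_mod_cast hJpos
  have hpow : (1 - g / 8) ^ J ≤ eps / 4 :=
    (pow_le_pow_of_le_one h18 h18'.le (show J0 ≤ J by omega)).trans hJ0.le
  set lam : ℝ := eps * g / (32 * Q) with hlamdef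
  have hQ1 : (1 : ℝ) ≤ Q := by
    have : 0 < Q := by exact_mod_cast hQ0
    exact_mod_cast this
  have hlam : 0 < lam := by positivity
  have hlam1 : lam ≤ 1 := by
    rw [hlamdef, div_le_one (by positivity)]
    have : eps * g ≤ 1 := by
      calc eps * g ≤ 1 * 1 := mul_le_mul heps1 hg1 hg.le (by norm_num)
        _ = 1 := by norm_num
    linarith
  have hlam8 : 8 * Q * lam / g = eps / 4 := by
    rw [hlamdef]
    field_simp
    ring
  set rho : ℝ := eps / (8 * J) with hrho
  have hrho0 : 0 < rho := by positivity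
  set del : ℝ := g ^ 3 * lam * rho ^ 2 / 512 with hdeldef
  have hdel : 0 < del := by positivity
  obtain ⟨n0, hn0⟩ := exists_nat_gt (2 / rho)
  refine ⟨del ^ J, by positivity, rho / 2, by positivity, n0, fun n hn N D hN hDn hDc => ?_⟩
  have hnr : 2 / rho < n := lt_of_lt_of_le hn0 (by exact_mod_cast hn)
  have hnpos : (0 : ℝ) < n := lt_trans (by positivity) hnr
  have hrn : 2 < rho * n := by
    rw [div_lt_iff₀ hrho0] at hnr
    linarith
  set R : ℕ := ⌊rho * n⌋₊ with hRdef
  have hR1 : (R : ℝ) ≤ rho * n := Nat.floor_le (by positivity)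
  have hR2 : rho * n < R + 1 := Nat.lt_floor_add_one _
  have hRhalf : rho * n / 2 ≤ R := by linarith
  have hRpos : 0 < R := by
    have : (0 : ℝ) < R := by linarith
    exact_mod_cast this
  have hJR : (J : ℝ) * R ≤ eps * n / 8 := by
    calc (J : ℝ) * R ≤ J * (rho * n) := mul_le_mul_of_nonneg_left hR1 hJr.le
      _ = eps * n / 8 := by
        rw [hrho]
        field_simp
  have hJRn : J * R < n := by
    have h1 : (J : ℝ) * R < n := by
      have : eps * n ≤ 1 * n := mul_le_mul_of_nonneg_right heps1 hnpos.le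
      linarith
    exact_mod_cast h1
  set N' : ℕ → Finset ℕ := fun k => if h : k < J then N ⟨k, h⟩ else ∅ with hN'
  have hNN : (fun i : Fin J => N' (0 + i)) = N := by
    funext i
    simp [hN']
  have hmain := comb_seq n J Q R g lam del N' D hg hg1 hlam hlam1 hdel hQ8 hRpos hJRn hJpos
    (by
      intro k hk r hr1 hr2
      have h1 : rho / 2 * n ≤ r := by
        have : (R : ℝ) ≤ r := by exact_mod_cast hr1
        linarith
      have h2 := hN ⟨k, hk⟩ r h1 hr2
      have h3 : N' k = N ⟨k, hk⟩ := by simp [hN', hk]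
      rw [h3]
      refine h2.trans ?_
      have h4 : #((N ⟨k, hk⟩).filter (fun m => m < r)) ≤ #(N ⟨k, hk⟩ ∩ Ico 0 r) := by
        apply Finset.card_le_card
        intro m hm
        rw [Finset.mem_filter] at hm
        rw [Finset.mem_inter, Finset.mem_Ico]
        exact ⟨hm.1, Nat.zero_le _, hm.2⟩
      exact_mod_cast h4)
    (by
      have h1 : (rho * n / 2) ^ 2 ≤ (R : ℝ) ^ 2 := by
        apply pow_le_pow_left₀ (by positivity) hRhalf
      have h2 : g ^ 3 * lam * (rho * n / 2) ^ 2 ≤ g ^ 3 * lam * (R : ℝ) ^ 2 :=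
        mul_le_mul_of_nonneg_left h1 (by positivity)
      have h3 : 64 * del * n * n = g ^ 3 * lam * (rho * n / 2) ^ 2 / 2 := by
        rw [hdeldef]
        ring
      rw [h3]
      have h4 : 0 < g ^ 3 * lam * (rho * n / 2) ^ 2 := by positivity
      linarith)
    hDn
    (by
      rw [hlam8]
      have h1 : ((1 - g / 8) ^ J + eps / 4) * n ≤ (eps / 4 + eps / 4) * n := by
        apply mul_le_mul_of_nonneg_right _ hnpos.le
        linarith
      have h2 : 0 < eps * n := by positivity
      linarith)
  obtain ⟨T, hT⟩ : ∃ T : Set ℕ, T = {x | ∃ d ∈ D, x ≤ d ∧ d < x + Q} := ⟨_, rfl⟩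
  rw [← hT] at hmain
  have hcard := U_card T N' J 0 0
  rw [hNN] at hcard
  rw [← hcard, mul_pow] at hmain
  refine hmain.trans ?_
  apply Nat.cast_le.2
  apply Finset.card_le_card
  intro m hm
  obtain ⟨h1, h2⟩ := Finset.mem_filter.1 hm
  rw [Nat.zero_add, hT] at h2
  exact Finset.mem_filter.2 ⟨h1, h2⟩

end Pool.Agent.Helper86.RG
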